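import Mathlib

/-!
# The backward half, definitions

States are pairs of words `(U, V)` of tokens, `i` gives the partner of a token (the other
occurrence of the same variable). In a run, the first token of `U` (or of `V`) beats a prefix of the
other word.
-/

namespace Pool.Agent.QuadEq.Back

variable {X : Type*}

/-- The conditions on a state with `t, b ≥ 1`, no closed pair of prefixes and no cut of type one
half. -/
structure F0 (i : X → X) (U V : List X) : Prop where
  /-- The partner map is an involution. -/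
  inv : ∀ x, i (i x) = x
  /-- It has no fixed point. -/
  ne : ∀ x, i x ≠ x
  /-- Every token occurs once. -/
  nd : (U ++ V).Nodup
  /-- The tokens are closed under the partner map. -/
  cl : ∀ x ∈ U ++ V, i x ∈ U ++ V
  /-- There is a top pair. -/
  tt : ∃ x ∈ U, i x ∈ U
  /-- There is a bottom pair. -/
  bb : ∃ y ∈ V, i y ∈ V
  /-- There is no closed pair of prefixes. -/
  irr : ∀ U₁ U₂ V₁ V₂, U = U₁ ++ U₂ → V = V₁ ++ V₂ → U₁ ≠ [] → V₁ ≠ [] →
    (∀ x ∈ U₁ ++ V₁, i x ∈ U₁ ++ V₁) → U₂ = [] ∧ V₂ = []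
  /-- There is no cut of type one half. -/
  nhc : ∀ U₁ U₂ V₁ V₂, U = U₁ ++ U₂ → V = V₁ ++ V₂ → (∀ x ∈ U₁, i x ∈ U₂ ∨ i x ∈ V₁) →
    (∀ x ∈ U₂, i x ∈ U₁ ∨ i x ∈ V₂) → (∀ x ∈ V₁, i x ∈ V₂ ∨ i x ∈ U₁) →
    (∀ x ∈ V₂, i x ∈ V₁ ∨ i x ∈ U₂) → False

/-- A run in which the first token of the first word wins. -/
inductive RunT (i : X → X) : List X × List X → List X × List X → Prop
  | same (u : X) (P Q Z V : List X) : V ≠ [] →
      RunT i (u :: (P ++ i u :: Q), Z ++ V) (u :: (P ++ (Z ++ i u :: Q)), V)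
  | mixed (u : X) (U Z₁ Z₂ V : List X) :
      RunT i (u :: U, Z₁ ++ (Z₂ ++ i u :: V)) (u :: U, Z₂ ++ (Z₁ ++ i u :: V))

/-- A run. -/
def Run (i : X → X) (S S' : List X × List X) : Prop := RunT i S S' ∨ RunT i S.swap S'.swap

/-- A path of at most `k` runs. -/
inductive Runs (i : X → X) : ℕ → List X × List X → List X × List X → Prop
  | refl (k : ℕ) (S : List X × List X) : Runs i k S S
  | step {k : ℕ} {S S₁ S' : List X × List X} : Run i S S₁ → Runs i k S₁ S' → Runs i (k + 1) S S'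

/-- The good patterns: both heads `u`, `w` are mixed. -/
def G1 (i : X → X) (S : List X × List X) : Prop :=
  ∃ u w A U₂ B V₂, S = (u :: (A ++ i w :: U₂), w :: (B ++ i u :: V₂)) ∧
    ((∃ x ∈ A, i x ∈ A ∧ ∃ y ∈ B, i y ∈ B ∨ i y ∈ V₂) ∨
      (∃ y ∈ B, i y ∈ B ∧ ∃ x ∈ A, i x ∈ A ∨ i x ∈ U₂))

/-- Reached from a good pattern with at most `k` runs. -/
def Bk (i : X → X) (k : ℕ) (U V : List X) : Prop := ∃ S, G1 i S ∧ Runs i k S (U, V)

variable {i : X → X} {U V : List X}

theorem Run.swap {S S' : List X × List X} (h : Run i S S') : Run i S.swap S'.swap := by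
  rcases h with h | h
  · exact Or.inr (by rwa [Prod.swap_swap, Prod.swap_swap])
  · exact Or.inl h

theorem Runs.swap {k : ℕ} {S S' : List X × List X} (h : Runs i k S S') :
    Runs i k S.swap S'.swap := by
  induction h with
  | refl k S => exact Runs.refl k _
  | step h _ ih => exact Runs.step h.swap ih

theorem Runs.mono {k k' : ℕ} {S S' : List X × List X} (h : Runs i k S S') (hk : k ≤ k') :
    Runs i k' S S' := by
  induction h generalizing k' with
  | refl k S => exact Runs.refl k' _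
  | step h _ ih =>
    obtain ⟨l, rfl⟩ : ∃ l, k' = l + 1 := ⟨k' - 1, by omega⟩
    exact Runs.step h (ih (by omega))

theorem Runs.trans {k l : ℕ} {S S' S'' : List X × List X} (h : Runs i k S S') (h' : Runs i l S' S'') :
    Runs i (k + l) S S'' := by
  induction h with
  | refl k S => exact h'.mono (by omega)
  | step h _ ih => exact (Runs.step h (ih h')).mono (by omega)

theorem Runs.single {S S' : List X × List X} (h : Run i S S') : Runs i 1 S S' :=
  Runs.step h (Runs.refl 0 _)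

theorem G1.swap {S : List X × List X} (h : G1 i S) : G1 i S.swap := by
  obtain ⟨u, w, A, U₂, B, V₂, rfl, h⟩ := h
  exact ⟨w, u, B, V₂, A, U₂, rfl, h.symm⟩

theorem Bk.swap {k : ℕ} (h : Bk i k U V) : Bk i k V U := by
  obtain ⟨S, h, h'⟩ := h
  exact ⟨S.swap, h.swap, h'.swap⟩

theorem Bk.mono {k k' : ℕ} (h : Bk i k U V) (hk : k ≤ k') : Bk i k' U V := by
  obtain ⟨S, h, h'⟩ := h
  exact ⟨S, h, h'.mono hk⟩

theorem Bk.run {k l : ℕ} {U' V' : List X} (h : Bk i k U V) (h' : Runs i l (U, V) (U', V')) :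
    Bk i (k + l) U' V' := by
  obtain ⟨S, h, h''⟩ := h
  exact ⟨S, h, h''.trans h'⟩

theorem F0.swap (h : F0 i U V) : F0 i V U where
  inv := h.inv
  ne := h.ne
  nd := List.nodup_append_comm.1 h.nd
  cl := by
    intro x hx
    have := h.cl x (by simpa [or_comm] using hx)
    simpa [or_comm] using this
  tt := h.bb
  bb := h.tt
  irr := by
    intro U₁ U₂ V₁ V₂ h1 h2 h3 h4 h5
    have := h.irr V₁ V₂ U₁ U₂ h2 h1 h4 h3 (by
      intro x hx
      have := h5 x (by simpa [or_comm] using hx)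
      simpa [or_comm] using this)
    exact this.symm
  nhc := by
    intro U₁ U₂ V₁ V₂ h1 h2 h3 h4 h5 h6
    exact h.nhc V₁ V₂ U₁ U₂ h2 h1 h5 h6 h3 h4

/-! ### Lists -/

/-- A word which contains the token `a` of a decomposition. -/
theorem split_mem {a : X} {l₁ l₂ V₁ V₂ : List X} (h : l₁ ++ a :: l₂ = V₁ ++ V₂)
    (ha : a ∉ V₂) : ∃ l, V₁ = l₁ ++ a :: l ∧ l₂ = l ++ V₂ := by
  rcases List.append_eq_append_iff.1 h with ⟨c, h1, h2⟩ | ⟨c, h1, h2⟩
  · cases c with
    | nil =>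
      simp only [List.nil_append] at h2
      exact absurd (h2 ▸ List.mem_cons_self) ha
    | cons b c =>
      simp only [List.cons_append, List.cons.injEq] at h2
      obtain ⟨rfl, rfl⟩ := h2
      exact ⟨c, h1, rfl⟩
  · exact absurd (h2 ▸ List.mem_append_right _ List.mem_cons_self) ha

/-- The decomposition at the last token with a property. -/
theorem last_decomp {p : X → Prop} {l : List X} (h : ∃ x ∈ l, p x) :
    ∃ l₁ a l₂, l = l₁ ++ a :: l₂ ∧ p a ∧ ∀ x ∈ l₂, ¬ p x := by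
  classical
  induction l with
  | nil => simp at h
  | cons b l ih =>
    by_cases h' : ∃ x ∈ l, p x
    · obtain ⟨l₁, a, l₂, rfl, h1, h2⟩ := ih h'
      exact ⟨b :: l₁, a, l₂, rfl, h1, h2⟩
    · obtain ⟨x, hx, hp⟩ := h
      rcases List.mem_cons.1 hx with rfl | hx
      · exact ⟨[], x, l, rfl, hp, fun y hy hpy => h' ⟨y, hy, hpy⟩⟩
      · exact absurd ⟨x, hx, hp⟩ h'

theorem F0.not_both (h : F0 i U V) {x : X} (hU : x ∈ U) (hV : x ∈ V) : False :=
  (List.nodup_append.1 h.nd).2.2 x hU x hV rfl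

/-! ### Rotations -/

/-- The conditions are invariant under rotations. -/
theorem F0.rot {u : X} {R Z₁ Z₂ W : List X} (h : F0 i (u :: R) (Z₁ ++ (Z₂ ++ i u :: W))) :
    F0 i (u :: R) (Z₂ ++ (Z₁ ++ i u :: W)) := by
  have hp : (Z₂ ++ (Z₁ ++ i u :: W)).Perm (Z₁ ++ (Z₂ ++ i u :: W)) := by
    rw [← List.append_assoc, ← List.append_assoc]
    exact List.Perm.append_right _ List.perm_append_comm
  have hm : ∀ x, x ∈ Z₂ ++ (Z₁ ++ i u :: W) ↔ x ∈ Z₁ ++ (Z₂ ++ i u :: W) := fun x => hp.mem_iff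
  have hnd : ((u :: R) ++ (Z₂ ++ (Z₁ ++ i u :: W))).Nodup :=
    (List.Perm.append_left (u :: R) hp).nodup_iff.2 h.nd
  have hiu : i u ∉ u :: R := fun h' => h.not_both h' (by simp)
  refine ⟨h.inv, h.ne, hnd, ?_, h.tt, ?_, ?_, ?_⟩
  · intro x hx
    have := h.cl x (by rw [List.mem_append] at hx ⊢; rwa [hm] at hx)
    rw [List.mem_append] at this ⊢
    rwa [hm]
  · obtain ⟨y, hy, hy'⟩ := h.bb
    exact ⟨y, (hm y).2 hy, (hm _).2 hy'⟩
  · intro U₁ U₂ V₁ V₂ h1 h2 h3 h4 h5
    obtain ⟨u', U₁, rfl⟩ : ∃ u' U', U₁ = u' :: U' := List.exists_cons_of_ne_nil h3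
    rw [List.cons_append, List.cons.injEq] at h1
    obtain ⟨rfl, h1⟩ := h1
    have h6 : i u ∈ V₁ := by
      have := h5 u (by simp)
      rw [List.mem_append] at this
      rcases this with h' | h'
      · refine absurd ?_ hiu
        rw [h1]
        rw [List.mem_cons] at h' ⊢
        rcases h' with h' | h'
        · exact Or.inl h'
        · exact Or.inr (List.mem_append_left _ h')
      · exact h'
    have h7 : i u ∉ V₂ := by
      intro h8
      have hnd2 : (V₁ ++ V₂).Nodup := by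
        rw [← h2]
        exact (List.nodup_append.1 hnd).2.1
      exact (List.nodup_append.1 hnd2).2.2 _ h6 _ h8 rfl
    rw [← List.append_assoc] at h2
    obtain ⟨l, h8, h9⟩ := split_mem h2 h7
    have := h.irr (u :: U₁) U₂ (Z₁ ++ (Z₂ ++ i u :: l)) V₂ (by rw [h1]; rfl) (by rw [h9]; simp) (by simp)
      (by simp) (by
        intro x hx
        have h10 := h5 x (by rw [h8]; simp only [List.mem_append, List.mem_cons] at hx ⊢; tauto)
        rw [h8] at h10
        simp only [List.mem_append, List.mem_cons] at h10 ⊢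
        tauto)
    exact this
  · intro U₁ U₂ V₁ V₂ h1 h2 h3 h4 h5 h6
    have h3' : U₁ ≠ [] := by
      rintro rfl
      obtain ⟨x, hx, hx'⟩ := h.tt
      rw [List.nil_append] at h1
      rw [h1] at hx
      rcases h4 x hx with h7 | h7
      · simp at h7
      · exact h.not_both hx' ((hm _).1 (by rw [h2]; exact List.mem_append_right _ h7))
    obtain ⟨u', U₁, rfl⟩ : ∃ u' U', U₁ = u' :: U' := List.exists_cons_of_ne_nil h3'
    rw [List.cons_append, List.cons.injEq] at h1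
    obtain ⟨rfl, h1⟩ := h1
    have h6' : i u ∈ V₁ := by
      rcases h3 u (by simp) with h' | h'
      · exact absurd (by rw [h1]; exact List.mem_cons_of_mem _ (List.mem_append_right _ h')) hiu
      · exact h'
    have h7 : i u ∉ V₂ := by
      intro h8
      have hnd2 : (V₁ ++ V₂).Nodup := by
        rw [← h2]
        exact (List.nodup_append.1 hnd).2.1
      exact (List.nodup_append.1 hnd2).2.2 _ h6' _ h8 rfl
    rw [← List.append_assoc] at h2
    obtain ⟨l, h8, h9⟩ := split_mem h2 h7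
    refine h.nhc (u :: U₁) U₂ (Z₁ ++ (Z₂ ++ i u :: l)) V₂ (by rw [h1]; rfl) (by rw [h9]; simp) ?_ h4 ?_ ?_
    · intro x hx
      rcases h3 x hx with h10 | h10
      · exact Or.inl h10
      · rw [h8] at h10
        simp only [List.mem_append, List.mem_cons] at h10 ⊢
        tauto
    · intro x hx
      exact h5 x (by rw [h8]; simp only [List.mem_append, List.mem_cons] at hx ⊢; tauto)
    · intro x hx
      rcases h6 x hx with h10 | h10
      · rw [h8] at h10
        simp only [List.mem_append, List.mem_cons] at h10 ⊢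
        tauto
      · exact Or.inr h10

/-- The rotation is a run. -/
theorem run_rot (i : X → X) (u : X) (R Z₁ Z₂ W : List X) :
    Run i (u :: R, Z₁ ++ (Z₂ ++ i u :: W)) (u :: R, Z₂ ++ (Z₁ ++ i u :: W)) :=
  Or.inl (RunT.mixed u R Z₁ Z₂ W)

/-- The same for the second word. -/
theorem run_rot' (i : X → X) (v : X) (R Z₁ Z₂ W : List X) :
    Run i (Z₁ ++ (Z₂ ++ i v :: W), v :: R) (Z₂ ++ (Z₁ ++ i v :: W), v :: R) :=
  Or.inr (RunT.mixed v R Z₁ Z₂ W)

/-! ### Inverse same-side runs -/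

/-- Words without repetition. -/
theorem nd_app {l₁ l₂ : List X} : (l₁ ++ l₂).Nodup ↔ l₁.Nodup ∧ l₂.Nodup ∧ ∀ a ∈ l₁, a ∉ l₂ := by
  rw [List.nodup_append]
  constructor
  · rintro ⟨h1, h2, h3⟩
    exact ⟨h1, h2, fun a ha hb => h3 a ha a hb rfl⟩
  · rintro ⟨h1, h2, h3⟩
    exact ⟨h1, h2, fun a ha b hb e => h3 a ha (e ▸ hb)⟩

/-- The tokens before a same-side run. -/
theorem F0.back_nd {u : X} {P Q Z V : List X} (h : F0 i (u :: (P ++ (Z ++ i u :: Q))) V) :
    ((u :: (P ++ i u :: Q)) ++ (Z ++ V)).Nodup := by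
  have hp : ((u :: (P ++ i u :: Q)) ++ (Z ++ V)).Perm ((u :: (P ++ (Z ++ i u :: Q))) ++ V) := by
    rw [List.cons_append, List.cons_append]
    refine List.Perm.cons u ?_
    rw [List.append_assoc, List.append_assoc, List.append_assoc]
    refine List.Perm.append_left P ?_
    rw [← List.append_assoc, ← List.append_assoc]
    exact List.Perm.append_right V List.perm_append_comm
  exact hp.nodup_iff.2 h.nd

/-- The conditions before a same-side run. -/
theorem F0.back {u : X} {P Q Z V : List X} (h : F0 i (u :: (P ++ (Z ++ i u :: Q))) V)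
    (hc : ∀ U₁ U₂ V₁ V₂, u :: (P ++ i u :: Q) = U₁ ++ U₂ → Z ++ V = V₁ ++ V₂ → U₁ ≠ [] → V₁ ≠ [] →
      (∀ x ∈ U₁ ++ V₁, i x ∈ U₁ ++ V₁) → ∃ z ∈ V₁, z ∈ V) :
    F0 i (u :: (P ++ i u :: Q)) (Z ++ V) := by
  have hp : ((u :: (P ++ i u :: Q)) ++ (Z ++ V)).Perm ((u :: (P ++ (Z ++ i u :: Q))) ++ V) := by
    rw [List.cons_append, List.cons_append]
    refine List.Perm.cons u ?_
    rw [List.append_assoc, List.append_assoc, List.append_assoc]
    refine List.Perm.append_left P ?_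
    rw [← List.append_assoc, ← List.append_assoc]
    exact List.Perm.append_right V List.perm_append_comm
  have hm : ∀ x, x ∈ (u :: (P ++ i u :: Q)) ++ (Z ++ V) ↔ x ∈ (u :: (P ++ (Z ++ i u :: Q))) ++ V :=
    fun x => hp.mem_iff
  have hnd := hp.nodup_iff.2 h.nd
  have hd := (List.nodup_append.1 hnd).2.2
  have hd' := (List.nodup_append.1 h.nd).2.2
  have hndV := (List.nodup_append.1 hnd).2.1
  have hndU := (List.nodup_append.1 hnd).1
  refine ⟨h.inv, h.ne, hnd, ?_, ⟨u, by simp, by simp⟩, ?_, ?_, ?_⟩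
  · intro x hx
    exact (hm _).2 (h.cl x ((hm x).1 hx))
  · obtain ⟨y, hy, hy'⟩ := h.bb
    exact ⟨y, List.mem_append_right _ hy, List.mem_append_right _ hy'⟩
  · intro U₁ U₂ V₁ V₂ h1 h2 h3 h4 h5
    obtain ⟨z, hz, hz'⟩ := hc U₁ U₂ V₁ V₂ h1 h2 h3 h4 h5
    -- V₁ contains Z
    obtain ⟨V₃, rfl, hV⟩ : ∃ V₃, V₁ = Z ++ V₃ ∧ V = V₃ ++ V₂ := by
      rcases List.append_eq_append_iff.1 h2 with ⟨c, h6, h7⟩ | ⟨c, h6, h7⟩
      · exact ⟨c, h6, h7⟩
      · exfalso
        refine (List.nodup_append.1 hndV).2.2 z ?_ z hz' rfl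
        rw [h6]
        exact List.mem_append_left _ hz
    have hV3 : V₃ ≠ [] := by
      rintro rfl
      rw [List.append_nil] at hz
      exact (List.nodup_append.1 hndV).2.2 z hz z hz' rfl
    obtain ⟨u', U₁, rfl⟩ : ∃ u' U', U₁ = u' :: U' := List.exists_cons_of_ne_nil h3
    rw [List.cons_append, List.cons.injEq] at h1
    obtain ⟨rfl, h1⟩ := h1
    have h6 : i u ∈ U₁ := by
      have := h5 u (by simp)
      rw [List.mem_append, List.mem_cons] at this
      rcases this with (h' | h') | h'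
      · exact absurd h' (h.ne u)
      · exact h'
      · exact absurd rfl (hd (i u) (by simp) (i u) (by rw [h2]; exact List.mem_append_left _ h'))
    have h7 : i u ∉ U₂ := by
      intro h8
      rw [h1] at hndU
      exact (List.nodup_append.1 (List.nodup_cons.1 hndU).2).2.2 _ h6 _ h8 rfl
    obtain ⟨l, h8, h9⟩ := split_mem h1 h7
    have := h.irr (u :: (P ++ (Z ++ i u :: l))) U₂ V₃ V₂ (by rw [h9]; simp) hV (by simp) hV3 (by
      intro x hx
      have h10 := h5 x (by rw [h8]; simp only [List.mem_append, List.mem_cons] at hx ⊢; tauto)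
      rw [h8] at h10
      simp only [List.mem_append, List.mem_cons] at h10 ⊢
      tauto)
    exact this
  · intro U₁ U₂ V₁ V₂ h1 h2 h3 h4 h5 h6
    have h3' : U₁ ≠ [] := by
      rintro rfl
      rw [List.nil_append] at h1
      rcases h4 u (by rw [← h1]; simp) with h7 | h7
      · simp at h7
      · exact hd (i u) (by simp) (i u) (by rw [h2]; exact List.mem_append_right _ h7) rfl
    obtain ⟨u', U₁, rfl⟩ : ∃ u' U', U₁ = u' :: U' := List.exists_cons_of_ne_nil h3'
    rw [List.cons_append, List.cons.injEq] at h1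
    obtain ⟨rfl, h1⟩ := h1
    have h6' : i u ∈ U₂ := by
      rcases h3 u (by simp) with h' | h'
      · exact h'
      · exact absurd rfl (hd (i u) (by simp) (i u) (by rw [h2]; exact List.mem_append_left _ h'))
    have h7 : i u ∉ U₁ := by
      intro h8
      rw [h1] at hndU
      exact (List.nodup_append.1 (List.nodup_cons.1 hndU).2).2.2 _ h8 _ h6' rfl
    -- U₂ contains i u :: Q
    obtain ⟨P₂, rfl, rfl⟩ : ∃ P₂, P = U₁ ++ P₂ ∧ U₂ = P₂ ++ i u :: Q := by
      rcases List.append_eq_append_iff.1 h1 with ⟨c, h8, h9⟩ | ⟨c, h8, h9⟩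
      · cases c with
        | nil =>
          simp only [List.nil_append] at h9
          exact ⟨[], by rw [h8]; simp, by rw [h9]; simp⟩
        | cons b c =>
          simp only [List.cons_append, List.cons.injEq] at h9
          obtain ⟨rfl, -⟩ := h9
          exact absurd (by rw [h8]; simp) h7
      · exact ⟨c, h8, h9⟩
    obtain ⟨V₃, rfl, hV⟩ : ∃ V₃, V₁ = Z ++ V₃ ∧ V = V₃ ++ V₂ := by
      rcases List.append_eq_append_iff.1 h2 with ⟨c, h8, h9⟩ | ⟨c, h8, h9⟩
      · exact ⟨c, h8, h9⟩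
      · exfalso
        obtain ⟨y, hy, hy'⟩ := h.bb
        rcases h6 y (by rw [h9]; exact List.mem_append_right _ hy) with h10 | h10
        · exact (List.nodup_append.1 hndV).2.2 (i y) (by rw [h8]; exact List.mem_append_left _ h10) _ hy' rfl
        · exact hd (i y) (by
            simp only [List.mem_append, List.mem_cons] at h10 ⊢
            tauto) _ (List.mem_append_right _ hy') rfl
    refine h.nhc (u :: U₁) (P₂ ++ (Z ++ i u :: Q)) V₃ V₂ (by simp) hV ?_ ?_ ?_ ?_
    · intro x hx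
      have := h3 x hx
      simp only [List.mem_append, List.mem_cons] at this ⊢
      tauto
    · intro x hx
      simp only [List.mem_append, List.mem_cons] at hx
      rcases hx with hx | hx | hx
      · exact h4 x (by simp [hx])
      · exact (h5 x (by simp [hx])).symm
      · exact h4 x (by simp only [List.mem_append, List.mem_cons]; tauto)
    · intro x hx
      exact h5 x (List.mem_append_right _ hx)
    · intro x hx
      have := h6 x hx
      simp only [List.mem_append, List.mem_cons] at this ⊢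
      tauto

/-- The same-side run. -/
theorem run_same (i : X → X) (u : X) (P Q Z : List X) {V : List X} (hV : V ≠ []) :
    Run i (u :: (P ++ i u :: Q), Z ++ V) (u :: (P ++ (Z ++ i u :: Q)), V) :=
  Or.inl (RunT.same u P Q Z V hV)

theorem run_same' (i : X → X) (v : X) (P Q Z : List X) {U : List X} (hU : U ≠ []) :
    Run i (Z ++ U, v :: (P ++ i v :: Q)) (U, v :: (P ++ (Z ++ i v :: Q))) :=
  Or.inr (RunT.same v P Q Z U hU)

/-! ### Runs given by equations -/

/-- Prepend: a T-run with the same-side winner `u`. -/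
theorem Bk.same {k : ℕ} {U' V' : List X} (h : Bk i k U V) (u : X) (P Q Z : List X)
    (hU : U = u :: (P ++ i u :: Q)) (hV : V = Z ++ V') (hU' : U' = u :: (P ++ (Z ++ i u :: Q)))
    (hW : V' ≠ []) : Bk i (k + 1) U' V' := by
  subst hU hV hU'
  exact h.run (Runs.single (run_same i u P Q Z hW))

/-- A B-run with the same-side winner `v`. -/
theorem Bk.same' {k : ℕ} {U' V' : List X} (h : Bk i k U V) (v : X) (P Q Z : List X)
    (hV : V = v :: (P ++ i v :: Q)) (hU : U = Z ++ U') (hV' : V' = v :: (P ++ (Z ++ i v :: Q)))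
    (hW : U' ≠ []) : Bk i (k + 1) U' V' :=
  (h.swap.same v P Q Z hV hU hV' hW).swap

/-- A T-run with the mixed winner `u`. -/
theorem Bk.rot {k : ℕ} {V' : List X} (h : Bk i k U V) (u : X) (R Z₁ Z₂ W : List X)
    (hU : U = u :: R) (hV : V = Z₁ ++ (Z₂ ++ i u :: W)) (hV' : V' = Z₂ ++ (Z₁ ++ i u :: W)) :
    Bk i (k + 1) U V' := by
  subst hU hV hV'
  exact h.run (Runs.single (run_rot i u R Z₁ Z₂ W))

/-- A B-run with the mixed winner `v`. -/
theorem Bk.rot' {k : ℕ} {U' : List X} (h : Bk i k U V) (v : X) (R Z₁ Z₂ W : List X)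
    (hV : V = v :: R) (hU : U = Z₁ ++ (Z₂ ++ i v :: W)) (hU' : U' = Z₂ ++ (Z₁ ++ i v :: W)) :
    Bk i (k + 1) U' V :=
  (h.swap.rot v R Z₁ Z₂ W hV hU hU').swap

/-- The conditions under a T-rotation. -/
theorem F0.rotT {V' : List X} (h : F0 i U V) (u : X) (R Z₁ Z₂ W : List X)
    (hU : U = u :: R) (hV : V = Z₁ ++ (Z₂ ++ i u :: W)) (hV' : V' = Z₂ ++ (Z₁ ++ i u :: W)) :
    F0 i U V' := by
  subst hU hV hV'
  exact h.rot

/-- The conditions under a B-rotation. -/
theorem F0.rotB {U' : List X} (h : F0 i U V) (v : X) (R Z₁ Z₂ W : List X)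
    (hV : V = v :: R) (hU : U = Z₁ ++ (Z₂ ++ i v :: W)) (hU' : U' = Z₂ ++ (Z₁ ++ i v :: W)) :
    F0 i U' V :=
  (h.swap.rotT v R Z₁ Z₂ W hV hU hU').swap

/-- The conditions before a T-run, by equations. -/
theorem F0.backT {U' V' : List X} (h : F0 i U' V') (u : X) (P Q Z : List X)
    (hU : U = u :: (P ++ i u :: Q)) (hV : V = Z ++ V') (hU' : U' = u :: (P ++ (Z ++ i u :: Q)))
    (hc : ∀ U₁ U₂ V₁ V₂, U = U₁ ++ U₂ → V = V₁ ++ V₂ → U₁ ≠ [] → V₁ ≠ [] →
      (∀ x ∈ U₁ ++ V₁, i x ∈ U₁ ++ V₁) → ∃ z ∈ V₁, z ∈ V') : F0 i U V := by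
  subst hU hV hU'
  exact h.back hc

/-- The conditions before a B-run, by equations. -/
theorem F0.backB {U' V' : List X} (h : F0 i U' V') (v : X) (P Q Z : List X)
    (hV : V = v :: (P ++ i v :: Q)) (hU : U = Z ++ U') (hV' : V' = v :: (P ++ (Z ++ i v :: Q)))
    (hc : ∀ U₁ U₂ V₁ V₂, U = U₁ ++ U₂ → V = V₁ ++ V₂ → U₁ ≠ [] → V₁ ≠ [] →
      (∀ x ∈ U₁ ++ V₁, i x ∈ U₁ ++ V₁) → ∃ z ∈ U₁, z ∈ U') : F0 i U V := by
  refine (h.swap.backT v P Q Z hV hU hV' ?_).swap
  intro U₁ U₂ V₁ V₂ h1 h2 h3 h4 h5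
  exact hc V₁ V₂ U₁ U₂ h2 h1 h4 h3 (by
    intro x hx
    have := h5 x (by simpa [or_comm] using hx)
    simpa [or_comm] using this)

/-- A maximal prefix with a property. -/
theorem max_prefix (P : List X → Prop) (h : P []) (Z : List X) :
    ∃ Z₁ Z₂, Z = Z₁ ++ Z₂ ∧ P Z₁ ∧ ∀ r Z₃, Z₂ = r :: Z₃ → ¬ P (Z₁ ++ [r]) := by
  suffices H : ∀ (Z₂ Z₁ : List X), P Z₁ → ∃ Z₃ Z₄, Z₁ ++ Z₂ = Z₃ ++ Z₄ ∧ P Z₃ ∧
      ∀ r Z₅, Z₄ = r :: Z₅ → ¬ P (Z₃ ++ [r]) from H Z [] h
  intro Z₂
  induction Z₂ with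
  | nil => intro Z₁ h1; exact ⟨Z₁, [], rfl, h1, fun r Z₅ h2 => by simp at h2⟩
  | cons a Z₂ ih =>
    intro Z₁ h1
    by_cases h2 : P (Z₁ ++ [a])
    · obtain ⟨Z₃, Z₄, h3, h4⟩ := ih (Z₁ ++ [a]) h2
      exact ⟨Z₃, Z₄, by rw [← h3]; simp, h4⟩
    · refine ⟨Z₁, a :: Z₂, rfl, h1, ?_⟩
      intro r Z₅ h3
      rw [List.cons.injEq] at h3
      rw [← h3.1]
      exact h2

/-- Two different members of a word, in one of the two orders. -/
theorem two_mem {a b : X} {l : List X} (ha : a ∈ l) (hb : b ∈ l) (hab : a ≠ b) :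
    (∃ l₁ l₂ l₃, l = l₁ ++ a :: (l₂ ++ b :: l₃)) ∨ ∃ l₁ l₂ l₃, l = l₁ ++ b :: (l₂ ++ a :: l₃) := by
  obtain ⟨l₁, l₂, rfl⟩ := List.append_of_mem ha
  rw [List.mem_append, List.mem_cons] at hb
  rcases hb with hb | hb | hb
  · obtain ⟨l₃, l₄, rfl⟩ := List.append_of_mem hb
    exact Or.inr ⟨l₃, l₄, l₂, by simp⟩
  · exact absurd hb.symm hab
  · obtain ⟨l₃, l₄, rfl⟩ := List.append_of_mem hb
    exact Or.inl ⟨l₁, l₃, l₄, rfl⟩

end Pool.Agent.QuadEq.Back
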